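import Pool.Agent.H77.SH.Fr3

set_option autoImplicit false

/-!
# [H77 SH Chk] small cases (helper82)
-/

namespace Pool.Agent.H77.SH

open Pool.Agent.H77.SG

private theorem chk1 : ∀ n : ℕ, n < 600 → n % 2 = 1 → n % 3 = 0 → s2 n ≠ s2 (n + 2) := by
  decide +kernel

private theorem chk2 : ∀ n : ℕ, n < 80 → 0 < n → n % 12 = 0 → n ≠ 24 → s2 n ≠ s2 (n + 2) := by
  decide +kernel

/-- the module statement -/
theorem chk : ChkStmt := ⟨chk1, fun n h0 h1 h2 h3 => chk2 n h1 h0 h2 h3⟩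

end Pool.Agent.H77.SH
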