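import Pool.Agent.H77.SH.Fr3

set_option autoImplicit false

/-!
# [H77 SH Chk2] `Chk` (helper88)
-/

namespace Pool.Agent.H77.SH.C88c

open Pool.Agent.H77.SG

theorem a1 : ∀ m < 100, s2 (6 * m + 3) ≠ s2 (6 * m + 5) := by
  unfold s2
  decide +kernel

theorem a2 : ∀ m < 7, 0 < m → m ≠ 2 → s2 (12 * m) ≠ s2 (12 * m + 2) := by
  unfold s2
  decide +kernel

theorem chk : ChkStmt := by
  refine ⟨fun n hn h1 h2 => ?_, fun n hn0 hn h1 h2 => ?_⟩
  · obtain ⟨m, rfl⟩ : ∃ m, n = 6 * m + 3 := ⟨n / 6, by omega⟩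
    exact a1 m (by omega)
  · obtain ⟨m, rfl⟩ : ∃ m, n = 12 * m := ⟨n / 12, by omega⟩
    exact a2 m (by omega) (by omega) (by omega)

end Pool.Agent.H77.SH.C88c
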