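import Pool.Agent.H77.SH.Fr

set_option autoImplicit false

/-!
# [H77 SH CubL] see the docstring of `CubLStmt` in `Fr.lean` (helper83)
-/

namespace Pool.Agent.H77.SH

open Pool.Agent.H77.SG

namespace CubLAux

theorem s2_sigma (n : ℕ) : s2 n = ArithmeticFunction.sigma 2 n := by
  rw [ArithmeticFunction.sigma_apply]
  rfl

theorem s2_mul {m n : ℕ} (h : m.Coprime n) : s2 (m * n) = s2 m * s2 n := by
  rw [s2_sigma, s2_sigma, s2_sigma]
  exact ArithmeticFunction.isMultiplicative_sigma.map_mul_of_coprime h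

theorem s2_prime {q : ℕ} (hq : q.Prime) : s2 q = 1 + q ^ 2 := by
  unfold s2
  rw [hq.divisors, Finset.sum_pair hq.one_lt.ne]
  ring

theorem s2_cube {p : ℕ} (hp : p.Prime) : s2 (p ^ 3) = 1 + p ^ 2 + p ^ 4 + p ^ 6 := by
  unfold s2
  rw [Nat.sum_divisors_prime_pow hp]
  simp only [Finset.sum_range_succ, Finset.sum_range_zero]
  ring

theorem s2_ge {m k : ℕ} (hm : m ≠ 0) (hk : k ∣ m) (h1 : k ≠ 1) (h2 : k ≠ m) (h3 : m ≠ 1) :
    1 + k ^ 2 + m ^ 2 ≤ s2 m := by
  unfold s2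
  have hsub : ({1, k, m} : Finset ℕ) ⊆ m.divisors := by
    intro x hx
    rw [Finset.mem_insert, Finset.mem_insert, Finset.mem_singleton] at hx
    rw [Nat.mem_divisors]
    rcases hx with rfl | rfl | rfl
    · exact ⟨one_dvd _, hm⟩
    · exact ⟨hk, hm⟩
    · exact ⟨dvd_rfl, hm⟩
  have h := Finset.sum_le_sum_of_subset (f := fun d : ℕ => d ^ 2) hsub
  have e : ∑ d ∈ ({1, k, m} : Finset ℕ), d ^ 2 = 1 + k ^ 2 + m ^ 2 := by
    rw [Finset.sum_insert, Finset.sum_pair h2]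
    · ring
    · rw [Finset.mem_insert, Finset.mem_singleton]
      rintro (h | h)
      · exact h1 h.symm
      · exact h3 h.symm
  rw [e] at h
  exact h

theorem not_sq {p t : ℤ} (hp : 3 ≤ p) (h9 : 9 ≤ p ∨ p = 3 ∨ p = 5 ∨ p = 7) (ht : 0 ≤ t)
    (h : t ^ 2 = p ^ 4 + 6 * p ^ 3 + p ^ 2 - 8) : False := by
  rcases h9 with h9 | rfl | rfl | rfl
  · have a1 : p ^ 2 + 3 * p - 4 < t := by
      by_contra hc
      push Not at hc
      have : t ^ 2 ≤ (p ^ 2 + 3 * p - 4) ^ 2 := pow_le_pow_left₀ ht hc 2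
      nlinarith
    have a2 : t < p ^ 2 + 3 * p - 3 := by
      by_contra hc
      push Not at hc
      have h0 : 0 ≤ p ^ 2 + 3 * p - 3 := by nlinarith
      have : (p ^ 2 + 3 * p - 3) ^ 2 ≤ t ^ 2 := pow_le_pow_left₀ h0 hc 2
      nlinarith
    omega
  · have a1 : t < 16 := by nlinarith
    have a2 : 15 < t := by nlinarith
    omega
  · have a1 : t < 38 := by nlinarith
    have a2 : 37 < t := by nlinarith
    omega
  · have a1 : t < 68 := by nlinarith
    have a2 : 67 < t := by nlinarith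
    omega

end CubLAux

open CubLAux in
theorem cubl : CubLStmt := by
  intro p m hp hp2 hm hsq hs
  have hp3 : 3 ≤ p := by
    have := hp.two_le
    omega
  have hpodd : p % 2 = 1 := by
    rcases hp.eq_two_or_odd with h | h
    · exact absurd h hp2
    · exact h
  have hp27 : 27 ≤ p ^ 3 := by
    have := Nat.pow_le_pow_left hp3 3
    omega
  have hm25 : 25 ≤ m := by omega
  rw [s2_cube hp] at hs
  have hmodd : m % 2 = 1 := by
    have h1 : p ^ 3 % 2 = 1 := by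
      rw [Nat.pow_mod, hpodd]
    omega
  have hmz : (m : ℤ) + 2 = (p : ℤ) ^ 3 := by exact_mod_cast hm
  have hsz : (s2 m : ℤ) = 1 + (p : ℤ) ^ 2 + (p : ℤ) ^ 4 + (p : ℤ) ^ 6 := by exact_mod_cast hs
  have hpz : (3 : ℤ) ≤ p := by exact_mod_cast hp3
  have hdiff : (s2 m : ℤ) - (m : ℤ) ^ 2 = (p : ℤ) ^ 4 + 4 * (p : ℤ) ^ 3 + (p : ℤ) ^ 2 - 3 := by
    have e : (m : ℤ) = (p : ℤ) ^ 3 - 2 := by linarith
    rw [hsz, e]
    ring
  have hnp : ¬ m.Prime := by
    intro h
    have h1 := s2_prime h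
    have h2 : (s2 m : ℤ) = 1 + (m : ℤ) ^ 2 := by exact_mod_cast h1
    have h3 : 0 < (p : ℤ) ^ 3 := by positivity
    have h4 : 0 < (p : ℤ) ^ 4 := by positivity
    nlinarith
  obtain ⟨q, hq⟩ : ∃ q, q = m.minFac := ⟨_, rfl⟩
  have hqp : q.Prime := by
    rw [hq]
    exact Nat.minFac_prime (by omega)
  obtain ⟨k, hk⟩ : q ∣ m := by
    rw [hq]
    exact Nat.minFac_dvd m
  have hkm : k ∣ m := ⟨q, by rw [hk, mul_comm]⟩
  have hk0 : k ≠ 0 := by
    rintro rfl
    omega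
  have hk1 : k ≠ 1 := by
    rintro rfl
    rw [mul_one] at hk
    rw [hk] at hnp
    exact hnp hqp
  have hkne : k ≠ m := by
    intro h
    have h1 := hqp.two_le
    have h2 : 2 * k ≤ q * k := Nat.mul_le_mul_right k h1
    omega
  have hge := s2_ge (by omega) hkm hk1 hkne (by omega)
  have hgez : 1 + (k : ℤ) ^ 2 + (m : ℤ) ^ 2 ≤ s2 m := by exact_mod_cast hge
  have hklt : (k : ℤ) < (p : ℤ) ^ 2 + 2 * p := by
    by_contra hc
    push Not at hc
    have h1 : ((p : ℤ) ^ 2 + 2 * p) ^ 2 ≤ (k : ℤ) ^ 2 := pow_le_pow_left₀ (by positivity) hc 2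
    nlinarith
  have hkz : (m : ℤ) = q * k := by exact_mod_cast hk
  have hqz : (p : ℤ) - 2 < q := by
    by_contra hc
    push Not at hc
    have hk0' : (0 : ℤ) ≤ k := Int.natCast_nonneg k
    have h1 : (q : ℤ) * k ≤ ((p : ℤ) - 2) * k := mul_le_mul_of_nonneg_right hc hk0'
    have h2 : ((p : ℤ) - 2) * k ≤ ((p : ℤ) - 2) * ((p : ℤ) ^ 2 + 2 * p) :=
      mul_le_mul_of_nonneg_left hklt.le (by linarith)
    nlinarith
  have hqodd : q % 2 = 1 := by
    rcases hqp.eq_two_or_odd with h | h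
    · rw [h] at hk
      omega
    · exact h
  have hqnep : q ≠ p := by
    intro h
    have h1 : p ∣ m := by
      rw [← h]
      exact ⟨k, hk⟩
    have h2 : p ∣ m + 2 := by
      rw [hm]
      exact dvd_pow_self p (by norm_num)
    have h3 : p ∣ 2 := (Nat.dvd_add_right h1).1 h2
    have h4 := Nat.le_of_dvd (by norm_num) h3
    omega
  have hqge : p + 2 ≤ q := by omega
  have hkq : k < q ^ 2 := by
    have h1 : (p + 2) ^ 2 ≤ q ^ 2 := Nat.pow_le_pow_left hqge 2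
    have h2 : (k : ℤ) < ((p : ℤ) + 2) ^ 2 := by nlinarith
    have h3 : k < (p + 2) ^ 2 := by exact_mod_cast h2
    omega
  have hkp : k.Prime := by
    by_contra hc
    have h2 : 2 ≤ k := by omega
    have h3 : k.minFac ∣ m := (Nat.minFac_dvd k).trans hkm
    have h4 : q ≤ k.minFac := by
      rw [hq]
      exact Nat.minFac_le_of_dvd (Nat.minFac_prime hk1).two_le h3
    have h5 : k.minFac ^ 2 ≤ k := Nat.minFac_sq_le_self (by omega) hc
    have h6 : q ^ 2 ≤ k.minFac ^ 2 := Nat.pow_le_pow_left h4 2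
    omega
  have hqk : q ≠ k := by
    intro h
    exact hsq q (by rw [hk, ← h, sq])
  have hcop : q.Coprime k := (Nat.coprime_primes hqp hkp).2 hqk
  have hs2 : s2 m = (1 + q ^ 2) * (1 + k ^ 2) := by
    rw [hk, s2_mul hcop, s2_prime hqp, s2_prime hkp]
  have hs2z : (s2 m : ℤ) = (1 + (q : ℤ) ^ 2) * (1 + (k : ℤ) ^ 2) := by exact_mod_cast hs2
  have hsum : ((q : ℤ) + k) ^ 2 = (p : ℤ) ^ 4 + 6 * (p : ℤ) ^ 3 + (p : ℤ) ^ 2 - 8 := by
    have e1 : (1 + (q : ℤ) ^ 2) * (1 + (k : ℤ) ^ 2) = 1 + (q : ℤ) ^ 2 + (k : ℤ) ^ 2 + ((q : ℤ) * k) ^ 2 := by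
      ring
    rw [hs2z, e1, hkz] at hdiff
    have e2 : 2 * ((q : ℤ) * k) = 2 * (p : ℤ) ^ 3 - 4 := by
      rw [← hkz]
      linarith
    linear_combination hdiff + e2
  refine not_sq hpz ?_ (by positivity) hsum
  rcases Nat.lt_or_ge p 9 with h | h
  · right
    have h8 : p ≠ 4 := by
      rintro rfl
      omega
    have : p = 3 ∨ p = 5 ∨ p = 7 := by omega
    rcases this with h | h | h
    · left; exact_mod_cast h
    · right; left; exact_mod_cast h
    · right; right; exact_mod_cast h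
  · left; exact_mod_cast h

end Pool.Agent.H77.SH
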