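import Pool.Agent.H77.SH.Fr

set_option autoImplicit false

/-!
# [H77 SH CubU] `p³` and `p³ + 2` (helper79)
-/

namespace Pool.Agent.H77.SH

open Pool.Agent.H77.SG

namespace CubUAux

theorem s2_eq (n : ℕ) : s2 n = ArithmeticFunction.sigma 2 n := by
  rw [ArithmeticFunction.sigma_apply, s2]

theorem s2_mul {a b : ℕ} (h : a.Coprime b) : s2 (a * b) = s2 a * s2 b := by
  rw [s2_eq, s2_eq, s2_eq]
  exact ArithmeticFunction.isMultiplicative_sigma.map_mul_of_coprime h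

theorem s2_prime {p : ℕ} (hp : p.Prime) : s2 p = 1 + p ^ 2 := by
  rw [s2, Nat.Prime.sum_divisors hp]
  ring

theorem s2_cube {p : ℕ} (hp : p.Prime) : s2 (p ^ 3) = 1 + p ^ 2 + p ^ 4 + p ^ 6 := by
  rw [s2, Nat.sum_divisors_prime_pow hp]
  simp only [Finset.sum_range_succ, Finset.sum_range_zero]
  ring

/-- `1`, `k`, `m` are three divisors -/
theorem three {m k : ℕ} (hm : 0 < m) (hk : k ∣ m) (h1 : 1 < k) (h2 : k < m) : 1 + k ^ 2 + m ^ 2 ≤ s2 m := by
  have h3 : ({1, k, m} : Finset ℕ) ⊆ m.divisors := by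
    intro d hd
    simp only [Finset.mem_insert, Finset.mem_singleton] at hd
    rw [Nat.mem_divisors]
    rcases hd with rfl | rfl | rfl
    · exact ⟨one_dvd _, hm.ne'⟩
    · exact ⟨hk, hm.ne'⟩
    · exact ⟨dvd_rfl, hm.ne'⟩
  have h4 : ∑ d ∈ ({1, k, m} : Finset ℕ), d ^ 2 ≤ s2 m := Finset.sum_le_sum_of_subset h3
  rw [Finset.sum_insert, Finset.sum_insert, Finset.sum_singleton] at h4
  · linarith
  · rw [Finset.mem_singleton]
    omega
  · simp only [Finset.mem_insert, Finset.mem_singleton]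
    omega

end CubUAux

open CubUAux in
theorem cubu : CubUStmt := by
  intro p hp hp2 hsq heq
  have hp3 : 3 ≤ p := by
    have := hp.two_le
    omega
  rw [s2_cube hp] at heq
  obtain ⟨m, hm⟩ : ∃ m, m = p ^ 3 + 2 := ⟨_, rfl⟩
  rw [← hm] at heq hsq
  have hm0 : 0 < m := by omega
  have hm1 : m ≠ 1 := by omega
  have hmp : ¬ m.Prime := by
    intro h
    rw [s2_prime h, hm] at heq
    have h1 : p ^ 2 + p ^ 4 = 4 * p ^ 3 + 4 := by nlinarith
    rcases Nat.lt_or_ge p 5 with h5 | h5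
    · interval_cases p <;> omega
    · nlinarith [pow_pos (show 0 < p by omega) 3, pow_pos (show 0 < p by omega) 2, Nat.mul_le_mul_right (p ^ 3) h5]
  have hq := Nat.minFac_prime hm1
  obtain ⟨k, hk⟩ := Nat.minFac_dvd m
  obtain ⟨q, hqd⟩ : ∃ q, q = m.minFac := ⟨_, rfl⟩
  rw [← hqd] at hq hk
  have hq2 := hq.two_le
  have hk0 : 0 < k := by
    rcases Nat.eq_zero_or_pos k with h | h
    · rw [h] at hk
      omega
    · exact h
  have hk1 : 1 < k := by
    rcases Nat.lt_or_ge 1 k with h | h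
    · exact h
    · have h1 : k = 1 := by omega
      rw [h1, mul_one] at hk
      rw [hk] at hmp
      exact absurd hq hmp
  have hkm : k < m := by
    rw [hk]
    nlinarith
  have hth := three hm0 ⟨q, by rw [hk, mul_comm]⟩ hk1 hkm
  have hpp : 0 < p ^ 3 := pow_pos (by omega) 3
  have hkk : k ^ 2 < (p ^ 2) ^ 2 := by
    rw [← heq, hm] at hth
    have h1 : p ^ 2 ≤ p ^ 3 := Nat.pow_le_pow_right (by omega) (by norm_num)
    nlinarith
  have hkp : k < p ^ 2 := lt_of_pow_lt_pow_left₀ 2 (Nat.zero_le _) hkk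
  have hpq : p < q := by
    by_contra h
    push Not at h
    have h1 : q * k ≤ p * k := Nat.mul_le_mul_right k h
    have h2 : p * k < p * p ^ 2 := Nat.mul_lt_mul_of_pos_left hkp (by omega)
    have h3 : p * p ^ 2 = p ^ 3 := by ring
    omega
  have hkpr : k.Prime := by
    by_contra h
    have h1 := Nat.minFac_sq_le_self hk0 h
    have h2 : q ≤ k.minFac := by
      rw [hqd]
      refine Nat.minFac_le_of_dvd (Nat.minFac_prime (by omega)).two_le ?_
      exact (Nat.minFac_dvd k).trans ⟨q, by rw [hk, mul_comm]⟩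
    have h3 : q ^ 2 ≤ k.minFac ^ 2 := Nat.pow_le_pow_left h2 2
    have h4 : p ^ 2 < q ^ 2 := Nat.pow_lt_pow_left hpq (by norm_num)
    omega
  have hne : q ≠ k := by
    intro h
    rw [h] at hk
    exact hsq k (by rw [hk, sq])
  have hs : s2 m = (1 + q ^ 2) * (1 + k ^ 2) := by
    rw [hk, s2_mul ((Nat.coprime_primes hq hkpr).2 hne), s2_prime hq, s2_prime hkpr]
  rw [hs] at heq
  have hqk : (q : ℤ) * k = (p : ℤ) ^ 3 + 2 := by
    have h1 : q * k = p ^ 3 + 2 := by rw [← hk, hm]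
    exact_mod_cast h1
  have heqz : (1 : ℤ) + (p : ℤ) ^ 2 + (p : ℤ) ^ 4 + (p : ℤ) ^ 6 = (1 + (q : ℤ) ^ 2) * (1 + (k : ℤ) ^ 2) := by
    exact_mod_cast heq
  obtain ⟨P, hP⟩ : ∃ P : ℤ, P = (p : ℤ) := ⟨_, rfl⟩
  obtain ⟨t, ht⟩ : ∃ t : ℤ, t = |(k : ℤ) - q| := ⟨_, rfl⟩
  have ht0 : 0 ≤ t := by
    rw [ht]
    exact abs_nonneg _
  have ht2 : t ^ 2 = P ^ 4 - 6 * P ^ 3 + P ^ 2 - 8 := by
    rw [ht, sq_abs, hP]
    have h1 : ((q : ℤ) * k) ^ 2 = ((p : ℤ) ^ 3 + 2) ^ 2 := by rw [hqk]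
    nlinarith [h1, hqk, heqz]
  rcases Nat.lt_or_ge p 17 with h17 | h17
  · have hPn : ∀ b : ℤ, 0 ≤ b → ¬ (b ^ 2 < t ^ 2 ∧ t ^ 2 < (b + 1) ^ 2) := by
      rintro b hb ⟨h1, h2⟩
      have h3 := lt_of_pow_lt_pow_left₀ 2 ht0 h1
      have h4 := lt_of_pow_lt_pow_left₀ 2 (by omega) h2
      omega
    have hsq0 := sq_nonneg t
    interval_cases p <;> first
      | (exfalso; revert hp; decide)
      | (rw [hP] at ht2; norm_num at ht2; omega)
      | (rw [hP] at ht2; norm_num at ht2; exact hPn 19 (by norm_num) ⟨by omega, by omega⟩)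
      | (rw [hP] at ht2; norm_num at ht2; exact hPn 82 (by norm_num) ⟨by omega, by omega⟩)
      | (rw [hP] at ht2; norm_num at ht2; exact hPn 124 (by norm_num) ⟨by omega, by omega⟩)
  · have hP17 : (17 : ℤ) ≤ P := by
      rw [hP]
      exact_mod_cast h17
    have hb : 0 ≤ P ^ 2 - 3 * P - 5 := by nlinarith
    have h1 : (P ^ 2 - 3 * P - 5) ^ 2 < t ^ 2 := by
      rw [ht2]
      nlinarith
    have h2 : t ^ 2 < (P ^ 2 - 3 * P - 4) ^ 2 := by
      rw [ht2]
      nlinarith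
    have h3 := lt_of_pow_lt_pow_left₀ 2 ht0 h1
    have h4 := lt_of_pow_lt_pow_left₀ 2 (by linarith) h2
    omega

end Pool.Agent.H77.SH
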