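import Pool.Agent.H77.SH.Fr

set_option autoImplicit false

/-!
# [H77 SH CubU88] `CubU` (helper88)
-/

namespace Pool.Agent.H77.SH.C88

open Pool.Agent.H77.SG Finset

theorem s2_prime {q : ℕ} (hq : q.Prime) : s2 q = q ^ 2 + 1 := by
  unfold s2
  rw [hq.sum_divisors]
  ring

theorem s2_cube {p : ℕ} (hp : p.Prime) : s2 (p ^ 3) = 1 + p ^ 2 + p ^ 4 + p ^ 6 := by
  unfold s2
  rw [Nat.sum_divisors_prime_pow hp]
  simp [Finset.sum_range_succ]
  ring

theorem s2_mul {a b : ℕ} (h : a.Coprime b) : s2 (a * b) = s2 a * s2 b := by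
  have h1 := (ArithmeticFunction.isMultiplicative_sigma (k := 2)).map_mul_of_coprime h
  simpa [ArithmeticFunction.sigma_apply, s2] using h1

/-- two different divisors -/
theorem two_div {m k : ℕ} (hm : 0 < m) (hk : k ∣ m) (hkm : k ≠ m) : k ^ 2 + m ^ 2 ≤ s2 m := by
  unfold s2
  calc k ^ 2 + m ^ 2 = ∑ d ∈ ({k, m} : Finset ℕ), d ^ 2 := by
        rw [Finset.sum_pair hkm]
    _ ≤ _ := Finset.sum_le_sum_of_subset (by
        intro d hd
        rw [Finset.mem_insert, Finset.mem_singleton] at hd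
        rw [Nat.mem_divisors]
        rcases hd with rfl | rfl
        · exact ⟨hk, hm.ne'⟩
        · exact ⟨dvd_rfl, hm.ne'⟩)

/-- a number whose square would be strictly between two consecutive squares -/
theorem no_sq {x a : ℤ} (h1 : a ^ 2 < x) (h2 : x < (a + 1) ^ 2) (ha : 0 ≤ a) (y : ℤ) : y ^ 2 ≠ x := by
  intro hy
  rw [← hy] at h1 h2
  have h3 : a < |y| := by
    rw [← sq_abs y] at h1
    exact lt_of_pow_lt_pow_left₀ 2 (abs_nonneg y) h1
  have h4 : |y| < a + 1 := by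
    rw [← sq_abs y] at h2
    exact lt_of_pow_lt_pow_left₀ 2 (by linarith) h2
  omega

theorem cubU : CubUStmt := by
  intro p hp hp2 hsq heq
  have hp3 : 3 ≤ p := by
    have := hp.two_le
    omega
  rw [s2_cube hp] at heq
  obtain ⟨m, hm⟩ : ∃ m, m = p ^ 3 + 2 := ⟨_, rfl⟩
  rw [← hm] at heq hsq
  have hm0 : 0 < m := by
    rw [hm]
    positivity
  have hm1 : m ≠ 1 := by
    rw [hm]
    omega
  -- `m` is not prime
  have hnp : ¬ m.Prime := by
    intro hmp
    rw [s2_prime hmp, hm] at heq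
    have h1 : p ^ 2 + p ^ 4 = 4 * p ^ 3 + 4 := by nlinarith
    have h2 : p ∣ 4 := by
      have h3 : p ∣ 4 * p ^ 3 + 4 := by
        rw [← h1]
        exact Dvd.intro (p + p ^ 3) (by ring)
      exact (Nat.dvd_add_right (Dvd.intro (4 * p ^ 2) (by ring))).1 h3
    have h4 : p ∣ 2 ^ 2 := by
      simpa using h2
    have h5 := hp.dvd_of_dvd_pow h4
    have h6 := (Nat.prime_dvd_prime_iff_eq hp Nat.prime_two).1 h5
    exact hp2 h6
  obtain ⟨k, hk⟩ := Nat.minFac_dvd m
  obtain ⟨q, hqdef⟩ : ∃ q, q = m.minFac := ⟨_, rfl⟩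
  rw [← hqdef] at hk
  have hq : q.Prime := by
    rw [hqdef]
    exact Nat.minFac_prime hm1
  have hk0 : 0 < k := Nat.pos_of_ne_zero fun h => by
    rw [h, mul_zero] at hk
    omega
  have hkm : k ≠ m := by
    intro h
    rw [h] at hk
    have := hq.two_le
    nlinarith
  have hk1 : k ≠ 1 := by
    intro h
    rw [h, mul_one] at hk
    exact hnp (hk ▸ hq)
  have hkd : k ∣ m := Dvd.intro_left q hk.symm
  have hb := two_div hm0 hkd hkm
  rw [← heq] at hb
  -- `k < p ^ 2`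
  have hkp : k < p ^ 2 := by
    have h1 : k ^ 2 < (p ^ 2) ^ 2 := by
      have h2 : m ^ 2 = p ^ 6 + 4 * p ^ 3 + 4 := by
        rw [hm]
        ring
      have h3 : p ^ 2 ≤ p ^ 3 := Nat.pow_le_pow_right (by omega) (by norm_num)
      have h4 : (p ^ 2) ^ 2 = p ^ 4 := by ring
      rw [h4]
      omega
    exact lt_of_pow_lt_pow_left₀ 2 (by positivity) h1
  have hqp : p < q := by
    by_contra h
    push Not at h
    have h1 : q * k ≤ p * p ^ 2 := Nat.mul_le_mul h hkp.le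
    have h2 : p * p ^ 2 = p ^ 3 := by ring
    rw [h2] at h1
    omega
  -- `k` is prime
  have hkpr : k.Prime := by
    by_contra hkn
    have h1 : k.minFac ^ 2 ≤ k := Nat.minFac_sq_le_self hk0 hkn
    have h2 : q ≤ k.minFac := by
      rw [hqdef]
      exact Nat.minFac_le_of_dvd (Nat.minFac_prime hk1).two_le ((Nat.minFac_dvd k).trans hkd)
    have h3 : q ^ 2 ≤ k.minFac ^ 2 := Nat.pow_le_pow_left h2 2
    have h4 : p ^ 2 < q ^ 2 := Nat.pow_lt_pow_left hqp (by norm_num)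
    omega
  have hqk : q ≠ k := by
    intro h
    rw [← h] at hk
    exact hsq q (by rw [hk]; ring)
  have hcop : q.Coprime k := (Nat.coprime_primes hq hkpr).2 hqk
  have hs : s2 m = (q ^ 2 + 1) * (k ^ 2 + 1) := by
    rw [hk, s2_mul hcop, s2_prime hq, s2_prime hkpr]
  rw [hs] at heq
  have hkz : (q : ℤ) * k = p ^ 3 + 2 := by
    have : q * k = p ^ 3 + 2 := by rw [← hk, hm]
    exact_mod_cast this
  have hez : (1 : ℤ) + p ^ 2 + p ^ 4 + p ^ 6 = (q ^ 2 + 1) * (k ^ 2 + 1) := by exact_mod_cast heq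
  have hd : ((k : ℤ) - q) ^ 2 = p ^ 4 - 6 * p ^ 3 + p ^ 2 - 8 := by
    have h1 : ((q : ℤ) * k) ^ 2 = (p ^ 3 + 2) ^ 2 := by rw [hkz]
    linear_combination (-1 : ℤ) * hez - h1 - 2 * hkz
  have hpz : (3 : ℤ) ≤ p := by exact_mod_cast hp3
  by_cases h17 : 17 ≤ p
  · have h17z : (17 : ℤ) ≤ p := by exact_mod_cast h17
    refine no_sq (x := (p : ℤ) ^ 4 - 6 * p ^ 3 + p ^ 2 - 8) (a := (p : ℤ) ^ 2 - 3 * p - 5) ?_ ?_ ?_ _ hd
    · nlinarith
    · nlinarith
    · nlinarith
  · have h5 : p < 17 := by omega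
    clear hs heq hcop hkpr hqk hb hkd hk1 hkm hsq hnp
    have h6 : p = 3 ∨ p = 5 ∨ p = 7 ∨ p = 11 ∨ p = 13 := by
      clear hd hez hkz hkp hqp hk hm
      interval_cases p <;> revert hp <;> norm_num
    rcases h6 with rfl | rfl | rfl | rfl | rfl
    · have := sq_nonneg ((k : ℤ) - q)
      norm_num at hd
      nlinarith
    · have := sq_nonneg ((k : ℤ) - q)
      norm_num at hd
      nlinarith
    · exact no_sq (x := 384) (a := 19) (by norm_num) (by norm_num) (by norm_num) _ (by rw [hd]; norm_num)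
    · exact no_sq (x := 6768) (a := 82) (by norm_num) (by norm_num) (by norm_num) _ (by rw [hd]; norm_num)
    · exact no_sq (x := 15540) (a := 124) (by norm_num) (by norm_num) (by norm_num) _ (by rw [hd]; norm_num)

end Pool.Agent.H77.SH.C88
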