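import Pool.Agent.H77.SG.Fr

set_option autoImplicit false

/-!
# [H77 SH Fr] prime powers and numbers of divisors (MP_cb3c8e_nt.OddValues, stronger text): statements of the modules (helper77)
-/

namespace Pool.Agent.H77.SH

open Pool.Agent.H77.SG

/-- `Tau`: `d² ≡ 1` modulo `8` (`24`) for `d` odd (prime to `6`). -/
def TauStmt : Prop := (∀ m : ℕ, Odd m → s2 m ≡ m.divisors.card [MOD 8]) ∧
  (∀ m : ℕ, m.Coprime 6 → s2 m ≡ m.divisors.card [MOD 24])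

/-- `CubU`. Proof: `m = p³ + 2`, `s2 m - m² = p⁴ - 4p³ + p² - 3`; `m` is not prime; `q = minFac m`, `m = q k`, `k² < p⁴`, so `k < p²`,
`q > p`, `k` is prime (`k < q²`), `q ≠ k`, `s2 m = (1+q²)(1+k²)`; so `(q+k)² = (p²-p)²`, `(k-q)² = p⁴-6p³+p²-8`, which for `p ≥ 17`
lies strictly between `(p²-3p-5)²` and `(p²-3p-4)²`; `p = 3, 5`: negative, `7, 11, 13`: not a square. -/
def CubUStmt : Prop := ∀ p : ℕ, p.Prime → p ≠ 2 → (∀ a : ℕ, p ^ 3 + 2 ≠ a ^ 2) → s2 (p ^ 3) ≠ s2 (p ^ 3 + 2)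

/-- `CubL`. Proof: `m = p³ - 2`, `s2 m - m² = p⁴ + 4p³ + p² - 3`; `m` is not prime; `q = minFac m`, `m = q k`, `k² < (p²+2p)²`,
`q > p - 2`, `q` odd, `q ≠ p`, so `q ≥ p + 2`, `k` is prime (`k < q²`), `q ≠ k`; so `(k-q)² = (p²+p)²`, `(q+k)² = p⁴+6p³+p²-8`, which for
`p ≥ 9` lies strictly between `(p²+3p-4)²` and `(p²+3p-3)²`; `p = 3, 5, 7`: `244, 1392, 4500`. -/
def CubLStmt : Prop := ∀ p m : ℕ, p.Prime → p ≠ 2 → m + 2 = p ^ 3 → (∀ a : ℕ, m ≠ a ^ 2) → s2 m ≠ s2 (p ^ 3)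

/-- `Thr`. Proof: `s2 (p^a) < (p^a)² p²/(p²-1) ≤ (25/24) (p^a)²`, and `s2 m ≥ (10/9) m²` if `3 ∣ m` (`Pool.Agent.H77.SG.low` in `H77/SG/Mn`). -/
def ThrStmt : Prop := ∀ p a n : ℕ, p.Prime → 5 ≤ p → 60 < n → s2 n = s2 (n + 2) →
  (n = p ^ a → ¬ 3 ∣ n + 2) ∧ (n + 2 = p ^ a → ¬ 3 ∣ n)

/-- `Pow3`. Proof: `8 s2 (3^a) = 9 (3^a)² - 1`; the other number is prime to `6`, so by `UpStmt` with `q = 24` and the `8` classes prime to `6`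
its sum is at most `1.1105` times its square; `a ≤ 5` by `decide`. -/
def Pow3Stmt : Prop := ∀ n a : ℕ, 0 < n → (n = 3 ^ a ∨ n + 2 = 3 ^ a) → s2 n ≠ s2 (n + 2)

end Pool.Agent.H77.SH
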