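import Pool.Agent.H77.SG.Fr

set_option autoImplicit false

/-!
# [H77 SH Fr3] residues modulo 12 (MP_cb3c8e_nt.OddValues, stronger text): statements of the modules (helper77)
-/

namespace Pool.Agent.H77.SH

open Pool.Agent.H77.SG

/-- `UpC`. Proof: `up` with `q = 48` and the `16` classes prime to `6`. -/
def UpCStmt : Prop := ∀ m : ℕ, m.Coprime 6 → 0 < m → (s2 m : ℝ) ≤ 1.1036 * (m : ℝ) ^ 2

/-- `Chk`. Proof: `decide +kernel` (or in a few pieces). -/
def ChkStmt : Prop := (∀ n : ℕ, n < 600 → n % 2 = 1 → n % 3 = 0 → s2 n ≠ s2 (n + 2)) ∧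
  (∀ n : ℕ, 0 < n → n < 80 → n % 12 = 0 → n ≠ 24 → s2 n ≠ s2 (n + 2))

/-- `Tw`. Proof: `s2 (2 p^a) = 5 s2 (p^a) < (125/96) (2 p^a)²` (`ThrAux.pp` in `H77/SH/Thr`), the other number is divisible by `4`, so its
sum is at least `21/16` times its square (`low 4`); so `n + 2 = 2 p^a` and `126 n² < 125 (n+2)²`, `n ≤ 502`; `decide +kernel`: the even
solutions below `510` are `24, 280`, and `141` is not a power of `p`. -/
def TwStmt : Prop := ∀ n p a : ℕ, 0 < n → p.Prime → 5 ≤ p → 0 < a → s2 n = s2 (n + 2) →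
  (n = 2 * p ^ a ∨ n + 2 = 2 * p ^ a) → n = 24

end Pool.Agent.H77.SH
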