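import Pool.Agent.H77.SH.Fr
import Pool.Agent.H77.SG.Mn
import Pool.Agent.H77.SG.Par
import Pool.Agent.H77.SG.Up
import Pool.Agent.H77.SG.Res
import Pool.Agent.H77.SG.Five
import Pool.Agent.H77.SG.W35
import Pool.Agent.H14.Sg.C
import Pool.Agent.H14.Sg.D

set_option autoImplicit false

/-!
# [H77 SH Key] assembly (MP_cb3c8e_nt.OddValues, stronger text)
-/

namespace Pool.Agent.H77.SH

open Pool.Agent.H77.SG

theorem key (n : ℕ) (hn : 0 < n) (h' : s2 n = s2 (n + 2))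
    (hs : Odd (s2 n) ∨ ∃ a : ℕ, n = a ^ 2 ∨ n = 2 * a ^ 2 ∨ n + 2 = a ^ 2 ∨ n + 2 = 2 * a ^ 2) :
    ∃ w y : ℕ, n = 16 * w ^ 2 ∧ n + 2 = 2 * y ^ 2 ∧ 35 ∣ w ∧ 99 ∣ y ∧
      ∃ p : ℕ, p.Prime ∧ (p % 5 = 1 ∨ p % 5 = 4) ∧ w.factorization p % 5 = 2 := by
  obtain ⟨w, y, h1, h2, h3⟩ := main par up res n hn h' hs
  have hw : 0 < w := by
    rcases Nat.eq_zero_or_pos w with h0 | h0
    · subst h0
      omega
    · exact h0
  have hy : Odd y := by
    rcases Nat.even_or_odd y with he | ho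
    · exfalso
      obtain ⟨c, rfl⟩ := he
      have : (c + c) ^ 2 = 4 * c ^ 2 := by ring
      omega
    · exact ho
  have h4 : s2 (16 * w ^ 2) = s2 (2 * y ^ 2) := by
    rw [← h1, ← h2]
    exact h'
  obtain ⟨h5, h6⟩ := w35 up res y w hw (by omega) h3 h4
  exact ⟨w, y, h1, h2, h5, h6, fiveW w y hw hy h4⟩

theorem odd_pow {p a k : ℕ} (hp : p.Prime) (h2 : p ≠ 2) (h : 2 * k = p ^ a) : False := by
  have h1 : 2 ∣ p ^ a := ⟨k, h.symm⟩
  have h3 := (Nat.prime_dvd_prime_iff_eq Nat.prime_two hp).1 (Nat.prime_two.dvd_of_dvd_pow h1)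
  exact h2 h3.symm

theorem pp (hcu : CubUStmt) (hcl : CubLStmt) (hthr : ThrStmt) (hp3 : Pow3Stmt) (n : ℕ) (hn : 0 < n)
    (h : s2 n = s2 (n + 2)) (p a : ℕ) (hp : p.Prime) (ha : 0 < a) (hpa : n = p ^ a ∨ n + 2 = p ^ a) :
    Odd a ∧ 5 ≤ a ∧ 5 ≤ p ∧ (n = p ^ a → p % 3 = 2) ∧ (n + 2 = p ^ a → p % 3 = 1) := by
  have h2 : p ≠ 2 := by
    rintro rfl
    obtain ⟨b, hb⟩ : ∃ b : ℕ, (2 : ℕ) ^ a = b ^ 2 ∨ 2 ^ a = 2 * b ^ 2 := by
      rcases Nat.even_or_odd a with he | ho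
      · obtain ⟨c, rfl⟩ := he
        exact ⟨2 ^ c, Or.inl (by rw [← pow_mul]; congr 1; ring)⟩
      · obtain ⟨c, rfl⟩ := ho
        exact ⟨2 ^ c, Or.inr (by rw [← pow_mul, mul_comm c 2, pow_succ, mul_comm])⟩
    have hs : ∃ a : ℕ, n = a ^ 2 ∨ n = 2 * a ^ 2 ∨ n + 2 = a ^ 2 ∨ n + 2 = 2 * a ^ 2 := by
      refine ⟨b, ?_⟩
      rcases hpa with hpa | hpa <;> rcases hb with hb | hb <;> rw [hpa, ← hb] <;> simp
    obtain ⟨w, y, e1, e2, e3, e4, -⟩ := key n hn h (Or.inr hs)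
    rcases hpa with hpa | hpa
    · have h5 : 5 ∣ 2 ^ a := by
        rw [← hpa, e1]
        exact Dvd.dvd.mul_left (((show (5 : ℕ) ∣ 35 by norm_num).trans e3).trans (dvd_pow_self w two_ne_zero)) 16
      have h6 := Nat.Prime.dvd_of_dvd_pow (by norm_num) h5
      omega
    · have h5 : 3 ∣ 2 ^ a := by
        rw [← hpa, e2]
        exact Dvd.dvd.mul_left (((show (3 : ℕ) ∣ 99 by norm_num).trans e4).trans (dvd_pow_self y two_ne_zero)) 2
      have h6 := Nat.Prime.dvd_of_dvd_pow (by norm_num) h5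
      omega
  -- squares are impossible
  have hsq : ∀ b : ℕ, n ≠ b ^ 2 ∧ n + 2 ≠ b ^ 2 := by
    intro b
    constructor
    · intro hb
      obtain ⟨w, y, e1, e2, -⟩ := key n hn h (Or.inr ⟨b, Or.inl hb⟩)
      rcases hpa with hpa | hpa
      · exact odd_pow (a := a) hp h2 (k := 8 * w ^ 2) (by omega)
      · exact odd_pow (a := a) hp h2 (k := y ^ 2) (by omega)
    · intro hb
      obtain ⟨w, y, e1, e2, -⟩ := key n hn h (Or.inr ⟨b, Or.inr (Or.inr (Or.inl hb))⟩)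
      rcases hpa with hpa | hpa
      · exact odd_pow (a := a) hp h2 (k := 8 * w ^ 2) (by omega)
      · exact odd_pow (a := a) hp h2 (k := y ^ 2) (by omega)
  have hodd : Odd a := by
    rcases Nat.even_or_odd a with he | ho
    · exfalso
      obtain ⟨c, rfl⟩ := he
      have h3 : p ^ (c + c) = (p ^ c) ^ 2 := by
        rw [← pow_mul]
        congr 1
        ring
      rcases hpa with hpa | hpa
      · exact (hsq (p ^ c)).1 (hpa.trans h3)
      · exact (hsq (p ^ c)).2 (hpa.trans h3)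
    · exact ho
  have h3 : p ≠ 3 := by
    rintro rfl
    exact hp3 n a hn hpa h
  have hp5 : 5 ≤ p := by
    have := hp.two_le
    have h4 : p ≠ 4 := by
      rintro rfl
      exact absurd hp (by norm_num)
    omega
  have ha1 : a ≠ 1 := by
    rintro rfl
    rw [pow_one] at hpa
    rcases hpa with rfl | hpa
    · exact Pool.Agent.H14.Sg.not_prime_left hp h
    · exact Pool.Agent.H14.Sg.not_prime_right hn (by rw [hpa]; exact hp) h
  have ha3 : a ≠ 3 := by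
    rintro rfl
    rcases hpa with hpa | hpa
    · refine hcu p hp h2 (fun b hb => (hsq b).2 (by rw [hpa]; exact hb)) ?_
      rw [← hpa]
      exact h
    · refine hcl p n hp h2 hpa (fun b hb => (hsq b).1 hb) ?_
      rw [← hpa]
      exact h
  have ha5 : 5 ≤ a := by
    obtain ⟨c, rfl⟩ := hodd
    omega
  have hbig : 3125 ≤ p ^ a :=
    calc 3125 = 5 ^ 5 := by norm_num
      _ ≤ p ^ 5 := Nat.pow_le_pow_left hp5 5
      _ ≤ p ^ a := Nat.pow_le_pow_right (by omega) ha5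
  have hn60 : 60 < n := by
    rcases hpa with hpa | hpa <;> omega
  obtain ⟨t1, t2⟩ := hthr p a n hp hp5 hn60 h
  have hpm : p % 3 = 1 ∨ p % 3 = 2 := by
    have h0 : p % 3 ≠ 0 := fun h0 => h3 ((Nat.prime_dvd_prime_iff_eq Nat.prime_three hp).1 (Nat.dvd_of_mod_eq_zero h0)).symm
    omega
  refine ⟨hodd, ha5, hp5, fun e => ?_, fun e => ?_⟩
  · rcases hpm with h1 | h1
    · exfalso
      refine t1 e (Nat.dvd_of_mod_eq_zero ?_)
      have h4 : p ^ a % 3 = 1 := by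
        rw [Nat.pow_mod, h1, one_pow]
        norm_num
      omega
    · exact h1
  · rcases hpm with h1 | h1
    · exact h1
    · exfalso
      refine t2 e (Nat.dvd_of_mod_eq_zero ?_)
      have h4 : p ^ a % 3 = 2 := by
        obtain ⟨c, rfl⟩ := hodd
        rw [Nat.pow_mod, h1, pow_succ, pow_mul, Nat.mul_mod, Nat.pow_mod]
        norm_num
      omega

theorem tt (htau : TauStmt) (n : ℕ) (h : s2 n = s2 (n + 2)) (hodd : Odd n) :
    n.divisors.card ≡ (n + 2).divisors.card [MOD 8] ∧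
      (¬ 3 ∣ n * (n + 2) → n.divisors.card ≡ (n + 2).divisors.card [MOD 24]) := by
  have hodd2 : Odd (n + 2) := by
    obtain ⟨c, rfl⟩ := hodd
    exact ⟨c + 1, by ring⟩
  refine ⟨?_, fun h3 => ?_⟩
  · have h1 := htau.1 n hodd
    have h2 := htau.1 (n + 2) hodd2
    rw [h] at h1
    exact h1.symm.trans h2
  · have hc : ∀ m : ℕ, Odd m → ¬ 3 ∣ m → m.Coprime 6 := by
      intro m hm hm3
      have e1 : m.Coprime 2 := (Nat.coprime_two_right).2 hm
      have e2 : m.Coprime 3 := ((Nat.Prime.coprime_iff_not_dvd Nat.prime_three).2 hm3).symm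
      exact Nat.Coprime.mul_right e1 e2
    have h1 := htau.2 n (hc n hodd fun h4 => h3 (Dvd.dvd.mul_right h4 _))
    have h2 := htau.2 (n + 2) (hc (n + 2) hodd2 fun h4 => h3 (Dvd.dvd.mul_left h4 _))
    rw [h] at h1
    exact h1.symm.trans h2

end Pool.Agent.H77.SH
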