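import Pool.Agent.H77.SH.Fr3
import Pool.Agent.H77.SG.Mn

set_option autoImplicit false

/-!
# [H77 SH M12] residues modulo 12 (MP_cb3c8e_nt.OddValues, stronger text)
-/

namespace Pool.Agent.H77.SH

open Pool.Agent.H77.SG

theorem cop6 {m : ℕ} (h2 : m % 2 = 1) (h3 : m % 3 ≠ 0) : m.Coprime 6 := by
  have e1 : m.Coprime 2 := (Nat.coprime_two_right).2 (Nat.odd_iff.2 h2)
  have e2 : m.Coprime 3 := by
    refine ((Nat.Prime.coprime_iff_not_dvd Nat.prime_three).2 fun h => h3 ?_).symm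
    exact Nat.mod_eq_zero_of_dvd h
  exact Nat.Coprime.mul_right e1 e2

theorem m12 (hupc : UpCStmt) (hchk : ChkStmt) (n : ℕ) (hn : 0 < n) (h : s2 n = s2 (n + 2)) :
    n = 24 ∨ n % 12 = 2 ∨ n % 12 = 4 ∨ n % 12 = 5 ∨ n % 12 = 6 ∨ n % 12 = 8 ∨ n % 12 = 11 := by
  by_contra hc
  push Not at hc
  obtain ⟨h24, c2, c4, c5, c6, c8, c11⟩ := hc
  have s3 : s2 3 = 10 := by decide +kernel
  have s12 : s2 12 = 210 := by decide +kernel
  have hcase : n % 12 = 0 ∨ n % 12 = 10 ∨ (n % 2 = 1 ∧ n % 3 = 0) ∨ (n % 2 = 1 ∧ n % 3 = 1) := by omega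
  rcases hcase with h0 | h0 | ⟨h0, h0'⟩ | ⟨h0, h0'⟩
  · -- 12 ∣ n
    rcases Nat.lt_or_ge n 80 with hlt | hge
    · exact hchk.2 n hn hlt h0 h24 h
    · obtain ⟨k, rfl⟩ : ∃ k, n = 12 * k := ⟨n / 12, by omega⟩
      have e1 := low 12 k (by norm_num) (by omega)
      rw [s12, h] at e1
      have e2 : s2 (12 * k + 2) = 5 * s2 (6 * k + 1) := by
        have : 12 * k + 2 = 2 * (6 * k + 1) := by ring
        rw [this, mul2 _ ⟨3 * k, by ring⟩]
      have e3 := hupc (6 * k + 1) (cop6 (by omega) (by omega)) (by omega)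
      rw [e2] at e1
      have e4 : (210 : ℝ) * (k : ℝ) ^ 2 ≤ 5 * (s2 (6 * k + 1) : ℝ) := by exact_mod_cast e1
      have hk : (7 : ℝ) ≤ k := by
        have : 7 ≤ k := by omega
        exact_mod_cast this
      push_cast at e3
      nlinarith
  · -- 12 ∣ n + 2
    obtain ⟨k, hk⟩ : ∃ k, n + 2 = 12 * k := ⟨(n + 2) / 12, by omega⟩
    have hk1 : 1 ≤ k := by omega
    have e1 := low 12 k (by norm_num) (by omega)
    rw [s12, ← hk, ← h] at e1
    obtain ⟨j, rfl⟩ : ∃ j, k = j + 1 := ⟨k - 1, by omega⟩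
    have e5 : n = 2 * (6 * j + 5) := by omega
    have e2 : s2 n = 5 * s2 (6 * j + 5) := by
      rw [e5, mul2 _ ⟨3 * j + 2, by ring⟩]
    have e3 := hupc (6 * j + 5) (cop6 (by omega) (by omega)) (by omega)
    rw [e2] at e1
    have e4 : (210 : ℝ) * ((j + 1 : ℕ) : ℝ) ^ 2 ≤ 5 * (s2 (6 * j + 5) : ℝ) := by exact_mod_cast e1
    have hj : (0 : ℝ) ≤ j := Nat.cast_nonneg j
    push_cast at e3 e4
    nlinarith
  · -- n odd, 3 ∣ n
    rcases Nat.lt_or_ge n 600 with hlt | hge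
    · exact hchk.1 n hlt h0 h0' h
    · obtain ⟨k, rfl⟩ : ∃ k, n = 3 * k := ⟨n / 3, by omega⟩
      have e1 := low 3 k (by norm_num) (by omega)
      rw [s3, h] at e1
      have e3 := hupc (3 * k + 2) (cop6 (by omega) (by omega)) (by omega)
      have e4 : (10 : ℝ) * (k : ℝ) ^ 2 ≤ (s2 (3 * k + 2) : ℝ) := by exact_mod_cast e1
      have hk : (200 : ℝ) ≤ k := by
        have : 200 ≤ k := by omega
        exact_mod_cast this
      push_cast at e3
      nlinarith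
  · -- n odd, 3 ∣ n + 2
    obtain ⟨k, hk⟩ : ∃ k, n + 2 = 3 * k := ⟨(n + 2) / 3, by omega⟩
    have e1 := low 3 k (by norm_num) (by omega)
    rw [s3, ← hk, ← h] at e1
    obtain ⟨j, rfl⟩ : ∃ j, k = j + 1 := ⟨k - 1, by omega⟩
    have e5 : n = 3 * j + 1 := by omega
    have e3 := hupc n (cop6 h0 (by omega)) hn
    have e4 : (10 : ℝ) * ((j + 1 : ℕ) : ℝ) ^ 2 ≤ (s2 n : ℝ) := by exact_mod_cast e1
    have hj : (0 : ℝ) ≤ j := Nat.cast_nonneg j
    have e6 : (n : ℝ) = 3 * j + 1 := by exact_mod_cast e5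
    rw [e6] at e3
    push_cast at e4
    nlinarith

end Pool.Agent.H77.SH
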