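import Pool.Agent.H77.SH.Fr
import Pool.Agent.H77.SG.Up

set_option autoImplicit false

/-!
# [H77 SH Pow3] powers of three (helper82)
-/

namespace Pool.Agent.H77.SH

open Pool.Agent.H77.SG

private theorem s2_three (a : ℕ) : 8 * s2 (3 ^ a) + 1 = 9 * (3 ^ a) ^ 2 := by
  unfold s2
  rw [Nat.sum_divisors_prime_pow Nat.prime_three]
  induction a with
  | zero => simp
  | succ a ih =>
    rw [Finset.sum_range_succ, Nat.mul_add]
    have h : (3 ^ (a + 1)) ^ 2 = 9 * (3 ^ a) ^ 2 := by ring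
    rw [h]
    omega

private theorem s2_le (m : ℕ) (hm : 0 < m) (h2 : m % 2 = 1) (h3 : m % 3 ≠ 0) :
    (s2 m : ℝ) ≤ (m : ℝ) ^ 2 * (11105 / 10000) := by
  have h := up m 24 {1, 5, 7, 11, 13, 17, 19, 23} hm (by norm_num) (by
    intro r hr
    simp only [Finset.mem_insert, Finset.mem_singleton] at hr
    omega) (by
    intro d hd
    rw [Nat.mem_divisors] at hd
    obtain ⟨⟨e, he⟩, -⟩ := hd
    have hd2 : d % 2 ≠ 0 := by
      intro h0
      obtain ⟨f, hf⟩ : ∃ f, d = 2 * f := ⟨d / 2, by omega⟩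
      have : m = 2 * (f * e) := by rw [he, hf]; ring
      omega
    have hd3 : d % 3 ≠ 0 := by
      intro h0
      obtain ⟨f, hf⟩ : ∃ f, d = 3 * f := ⟨d / 3, by omega⟩
      have : m = 3 * (f * e) := by rw [he, hf]; ring
      omega
    simp only [Finset.mem_insert, Finset.mem_singleton]
    clear * - hd2 hd3
    omega)
  refine h.trans (mul_le_mul_of_nonneg_left ?_ (by positivity))
  norm_num [Finset.sum_insert, Finset.card_insert_of_notMem]

/-- the module statement -/
theorem pow3 : Pow3Stmt := by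
  intro n a hn h hs
  have hx := s2_three a
  have hx' : (8 : ℝ) * (s2 (3 ^ a) : ℝ) + 1 = 9 * ((3 : ℝ) ^ a) ^ 2 := by exact_mod_cast hx
  have hodd : (3 ^ a) % 2 = 1 := by
    rw [Nat.pow_mod]
    norm_num
  rcases h with h | h
  · rcases Nat.lt_or_ge a 6 with h6 | h6
    · subst h
      interval_cases a <;> revert hs <;> decide +kernel
    · have h3 : (3 ^ a) % 3 = 0 := by
        obtain ⟨b, rfl⟩ : ∃ b, a = b + 1 := ⟨a - 1, by omega⟩
        rw [pow_succ]
        omega
      have hb := s2_le (n + 2) (by omega) (by omega) (by omega)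
      rw [← hs, h] at hb
      push_cast at hb
      have h729 : (729 : ℝ) ≤ (3 : ℝ) ^ a := by
        calc (729 : ℝ) = 3 ^ 6 := by norm_num
          _ ≤ 3 ^ a := pow_le_pow_right₀ (by norm_num) h6
      nlinarith [mul_nonneg (sub_nonneg.2 h729) (sub_nonneg.2 h729)]
  · have ha : a ≠ 0 := by
      intro h0
      rw [h0] at h
      omega
    have h3 : (3 ^ a) % 3 = 0 := by
      obtain ⟨b, rfl⟩ : ∃ b, a = b + 1 := ⟨a - 1, by omega⟩
      rw [pow_succ]
      omega
    have hb := s2_le n hn (by omega) (by omega)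
    rw [hs, h] at hb
    have hn' : (n : ℝ) = (3 : ℝ) ^ a - 2 := by
      have : ((n + 2 : ℕ) : ℝ) = ((3 ^ a : ℕ) : ℝ) := by rw [h]
      push_cast at this
      linarith
    have h33 : (3 : ℝ) ≤ (3 : ℝ) ^ a := by
      calc (3 : ℝ) = 3 ^ 1 := by norm_num
        _ ≤ 3 ^ a := pow_le_pow_right₀ (by norm_num) (by omega)
    rw [hn'] at hb
    nlinarith [mul_nonneg (sub_nonneg.2 h33) (sub_nonneg.2 h33)]

end Pool.Agent.H77.SH
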