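import Pool.Agent.H77.SH.Fr

set_option autoImplicit false

/-!
# [H77 SH Tau] the sum of the squares of the divisors modulo 8 and 24 (helper28)
-/

namespace Pool.Agent.H77.SH

open Pool.Agent.H77.SG

namespace TauAux

theorem sum_modEq (q : ℕ) (S : Finset ℕ) (h : ∀ d ∈ S, d ^ 2 ≡ 1 [MOD q]) :
    ∑ d ∈ S, d ^ 2 ≡ S.card [MOD q] := by
  classical
  induction S using Finset.induction_on with
  | empty => exact Nat.ModEq.refl 0
  | insert a S ha ih =>
    rw [Finset.sum_insert ha, Finset.card_insert_of_notMem ha, add_comm]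
    exact Nat.ModEq.add (ih fun d hd => h d (Finset.mem_insert_of_mem hd))
      (h a (Finset.mem_insert_self a S))

theorem sq8 : ∀ r : ℕ, r < 8 → r % 2 = 1 → r ^ 2 % 8 = 1 := by decide

theorem sq24 : ∀ r : ℕ, r < 24 → r % 2 ≠ 0 → r % 3 ≠ 0 → r ^ 2 % 24 = 1 := by decide

end TauAux

theorem tau : TauStmt := by
  refine ⟨fun m hm => ?_, fun m hm => ?_⟩
  · refine TauAux.sum_modEq 8 m.divisors fun d hd => ?_
    have hd' : Odd d := hm.of_dvd_nat (Nat.dvd_of_mem_divisors hd)
    have h1 : d % 2 = 1 := Nat.odd_iff.1 hd'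
    show d ^ 2 % 8 = 1 % 8
    rw [Nat.pow_mod]
    exact TauAux.sq8 (d % 8) (Nat.mod_lt _ (by norm_num)) (by omega)
  · refine TauAux.sum_modEq 24 m.divisors fun d hd => ?_
    have hd' : d.Coprime 6 := Nat.Coprime.coprime_dvd_left (Nat.dvd_of_mem_divisors hd) hm
    have h2 : ¬ 2 ∣ d := fun h => by
      have := Nat.dvd_gcd h (show 2 ∣ 6 by norm_num)
      rw [hd'.gcd_eq_one] at this
      omega
    have h3 : ¬ 3 ∣ d := fun h => by
      have := Nat.dvd_gcd h (show 3 ∣ 6 by norm_num)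
      rw [hd'.gcd_eq_one] at this
      omega
    show d ^ 2 % 24 = 1 % 24
    rw [Nat.pow_mod]
    exact TauAux.sq24 (d % 24) (Nat.mod_lt _ (by norm_num)) (by omega) (by omega)

end Pool.Agent.H77.SH
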