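import Pool.Agent.H77.SH.Fr
import Pool.Agent.H77.SG.Mn
import Pool.Agent.H77.SG.Val

set_option autoImplicit false

/-!
# [H77 SH Thr] a prime power of a prime at least five: the other number is prime to three (helper54)
-/

namespace Pool.Agent.H77.SH

open Pool.Agent.H77.SG

namespace ThrAux

theorem three {m : ℕ} (hm : 0 < m) (h : 3 ∣ m) : 10 * m ^ 2 ≤ 9 * s2 m := by
  obtain ⟨t, rfl⟩ := h
  have ht : 0 < t := by omega
  have h1 := low 3 t (by norm_num) ht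
  have h2 : s2 3 = 10 := by decide
  rw [h2] at h1
  nlinarith

theorem pp {p : ℕ} (hp : p.Prime) (h5 : 5 ≤ p) (a : ℕ) : 24 * s2 (p ^ a) < 25 * (p ^ a) ^ 2 := by
  have h1 := Val.geo hp a
  have hN : 0 < p ^ a := Nat.pow_pos hp.pos
  have e : (p ^ 2) ^ (a + 1) = p ^ 2 * (p ^ a) ^ 2 := by
    rw [← pow_mul, ← pow_mul, ← pow_add]
    congr 1
    ring
  rw [e] at h1
  obtain ⟨N, hNdef⟩ : ∃ N, N = p ^ a := ⟨_, rfl⟩
  rw [← hNdef] at h1 hN ⊢
  obtain ⟨s, hs⟩ : ∃ s, s = s2 N := ⟨_, rfl⟩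
  rw [← hs] at h1 ⊢
  have hp2 : 25 ≤ p ^ 2 := by nlinarith
  obtain ⟨q, hq⟩ : ∃ q, p ^ 2 = q + 25 := ⟨p ^ 2 - 25, by omega⟩
  rw [hq] at h1
  have h3 : q + 25 - 1 = q + 24 := by omega
  rw [h3] at h1
  have h4 : 0 < (q + 25) * N ^ 2 := by positivity
  have h6 : (q + 24) * s < (q + 25) * N ^ 2 := by omega
  by_contra hcon
  push Not at hcon
  have h7 : (q + 24) * (25 * N ^ 2) ≤ (q + 24) * (24 * s) := Nat.mul_le_mul_left _ hcon
  nlinarith

end ThrAux

open ThrAux in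
theorem thr : ThrStmt := by
  intro p a n hp h5 hn h
  constructor
  · intro hnp h3
    have h1 := three (by omega) h3
    have h2 := pp hp h5 a
    rw [← hnp, h] at h2
    nlinarith
  · intro hnp h3
    have h1 := three (by omega) h3
    have h2 := pp hp h5 a
    rw [← hnp, ← h] at h2
    nlinarith

end Pool.Agent.H77.SH
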