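import Pool.Agent.H77.SH.Fr3
import Pool.Agent.H77.SH.Thr

set_option autoImplicit false

/-!
# [H77 SH Tw] see the docstring of `TwStmt` in `Fr3.lean` (helper83)
-/

namespace Pool.Agent.H77.SH

open Pool.Agent.H77.SG

namespace TwAux

theorem four {m : ℕ} (hm : 0 < m) (h : 4 ∣ m) : 21 * m ^ 2 ≤ 16 * s2 m := by
  obtain ⟨t, rfl⟩ := h
  have ht : 0 < t := by omega
  have h1 := low 4 t (by norm_num) ht
  have h2 : s2 4 = 21 := by decide
  rw [h2] at h1
  nlinarith

theorem chk : ∀ n : ℕ, n < 510 → n % 4 = 0 → 0 < n → s2 n = s2 (n + 2) → n = 24 ∨ n = 280 := by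
  decide +kernel

end TwAux

open TwAux in
theorem tw : TwStmt := by
  intro n p a hn hp h5 ha hs hor
  have hodd : Odd (p ^ a) := (hp.odd_of_ne_two (by omega)).pow
  have h1 := ThrAux.pp hp h5 a
  have h2 := mul2 (p ^ a) hodd
  obtain ⟨N, hN⟩ : ∃ N, N = p ^ a := ⟨_, rfl⟩
  rw [← hN] at h1 h2 hodd hor
  have hNmod : N % 2 = 1 := Nat.odd_iff.1 hodd
  rcases hor with h | h
  · exfalso
    have h4 : 4 ∣ n + 2 := by omega
    have h3 := four (by omega) h4
    rw [h, h2] at hs
    rw [h, ← hs] at h3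
    nlinarith
  · have h4 : 4 ∣ n := by omega
    have h3 := four hn h4
    have h6 : 126 * n ^ 2 < 125 * (n + 2) ^ 2 := by
      rw [hs, h, h2] at h3
      rw [h]
      nlinarith
    have h7 : n < 510 := by
      by_contra hc
      push Not at hc
      nlinarith
    rcases chk n h7 (by omega) hn hs with h8 | h8
    · exact h8
    · exfalso
      have h9 : N = 141 := by omega
      have h10 : 3 ∣ p ^ a := by
        rw [← hN, h9]
        norm_num
      have h11 := Nat.prime_three.dvd_of_dvd_pow h10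
      have h12 := (Nat.prime_dvd_prime_iff_eq Nat.prime_three hp).1 h11
      omega

end Pool.Agent.H77.SH
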