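import Pool.Agent.H77.SH.Fr3
import Pool.Agent.H77.SG.Up

set_option autoImplicit false

/-!
# [H77 SH UpC] the sum of the squares of the divisors of a number prime to six (helper54)
-/

namespace Pool.Agent.H77.SH

open Pool.Agent.H77.SG

theorem upc : UpCStmt := by
  intro m hc hm
  have hodd : ∀ d ∈ m.divisors, d.Coprime 6 := fun d hd =>
    Nat.Coprime.coprime_dvd_left (Nat.dvd_of_mem_divisors hd) hc
  have h := up m 48 {1, 5, 7, 11, 13, 17, 19, 23, 25, 29, 31, 35, 37, 41, 43, 47} hm (by norm_num) (by
    intro r hr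
    simp only [Finset.mem_insert, Finset.mem_singleton] at hr
    omega) (by
    intro d hd
    have h1 := hodd d hd
    have h2 : d % 2 ≠ 0 := by
      intro h0
      have h3 : 2 ∣ Nat.gcd d 6 := Nat.dvd_gcd (Nat.dvd_of_mod_eq_zero h0) (by norm_num)
      rw [h1] at h3
      omega
    have h3 : d % 3 ≠ 0 := by
      intro h0
      have h4 : 3 ∣ Nat.gcd d 6 := Nat.dvd_gcd (Nat.dvd_of_mod_eq_zero h0) (by norm_num)
      rw [h1] at h4
      omega
    simp only [Finset.mem_insert, Finset.mem_singleton]
    clear * - h2 h3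
    omega)
  refine h.trans ?_
  rw [mul_comm (1.1036 : ℝ)]
  refine mul_le_mul_of_nonneg_left ?_ (by positivity)
  norm_num [Finset.sum_insert, Finset.card_insert_of_notMem]

end Pool.Agent.H77.SH
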